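import Pool.Agent.Q210.SP.Net
import Pool.Agent.Q210.SP.Pen

set_option autoImplicit false

/-! # Networks with an attached graph -/

namespace Pool.Agent.Q210.GC

open Finset Pool.Agent.TH658.Dg Pool.Agent.H521R3.BI Pool.Agent.Q210.SM Pool.Agent.Q210.SP

/-- The vertices of the core. -/
inductive Gx (m : ℕ) (E : Type) : Type
  /-- The fibre of the node `v`. -/
  | fb (v : MQ m) (S : Pt → ZMod 2)
  /-- The vertices of the edge `e` at its tail. -/
  | ou (e : ME m) (c : ZMod 2)
  /-- The vertices of the edge `e` at its head. -/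
  | nn (e : ME m) (c : ZMod 2)
  /-- The extra vertices. -/
  | ex (a : E)

variable {m : ℕ} {E : Type}

/-- The vertices of the core as a sum. -/
def gxEquiv (m : ℕ) (E : Type) : Gx m E ≃
    (MQ m × (Pt → ZMod 2)) ⊕ (ME m × ZMod 2) ⊕ (ME m × ZMod 2) ⊕ E where
  toFun
    | Gx.fb v S => Sum.inl (v, S)
    | Gx.ou e c => Sum.inr (Sum.inl (e, c))
    | Gx.nn e c => Sum.inr (Sum.inr (Sum.inl (e, c)))
    | Gx.ex h => Sum.inr (Sum.inr (Sum.inr h))
  invFun
    | Sum.inl (v, S) => Gx.fb v S
    | Sum.inr (Sum.inl (e, c)) => Gx.ou e c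
    | Sum.inr (Sum.inr (Sum.inl (e, c))) => Gx.nn e c
    | Sum.inr (Sum.inr (Sum.inr h)) => Gx.ex h
  left_inv u := by cases u <;> rfl
  right_inv u := by
    rcases u with ⟨v, S⟩ | ⟨e, c⟩ | ⟨e, c⟩ | h <;> rfl

instance [NeZero m] [Fintype E] : Fintype (Gx m E) := Fintype.ofEquiv _ (gxEquiv m E).symm

/-- One direction of the adjacency. -/
def grel (Γ : SimpleGraph E) (att : MQ m → ZMod 2 → E → Prop) (x : MQ m → ZMod 2) :
    Gx m E → Gx m E → Prop
  | Gx.fb v S, Gx.ou e c => ∃ k, e = mport m v (Sum.inr k) ∧ c = S (Sum.inr k)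
  | Gx.fb v S, Gx.nn e c => ∃ k, e = mport m v (Sum.inl k) ∧ c = S (Sum.inl k)
  | Gx.fb v S, Gx.ex a => att v (∑ j, S j + x v) a
  | Gx.ou e c, Gx.nn e' c' => e = e' ∧ c = c'
  | Gx.ex a, Gx.ex b => Γ.Adj a b
  | _, _ => False

/-- The core of the graph with the bits `x`. -/
def core (Γ : SimpleGraph E) (att : MQ m → ZMod 2 → E → Prop) (x : MQ m → ZMod 2) :
    SimpleGraph (Gx m E) where
  Adj u w := grel Γ att x u w ∨ grel Γ att x w u
  symm := ⟨fun _ _ h => h.symm⟩
  loopless := ⟨by
    rintro (⟨v, S⟩ | ⟨e, c⟩ | ⟨e, c⟩ | h) h'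
    · exact h'.elim id id
    · exact h'.elim id id
    · exact h'.elim id id
    · exact h'.elim (Γ.loopless.irrefl h) (Γ.loopless.irrefl h)⟩

/-- The numbers of leaves. -/
def glab (m : ℕ) (lb : E → ℕ) : Gx m E → ℕ
  | Gx.fb _ _ => 0
  | Gx.ou e _ => e.1.1 + 1
  | Gx.nn e _ => e.1.1 + 5
  | Gx.ex a => lb a

/-- The graph. -/
def gg (Γ : SimpleGraph E) (att : MQ m → ZMod 2 → E → Prop) (lb : E → ℕ) (x : MQ m → ZMod 2) :
    SimpleGraph (PV (glab m lb)) := PG (core Γ att x) (glab m lb)

/-- The action of a flow and of a bijection of the extra vertices. -/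
def gact (M : ME m → ZMod 2) (θ : E → E) : Gx m E → Gx m E
  | Gx.fb v S => Gx.fb v (fun j => S j + M (mport m v j))
  | Gx.ou e c => Gx.ou e (c + M e)
  | Gx.nn e c => Gx.nn e (c + M e)
  | Gx.ex a => Gx.ex (θ a)

theorem gact_zero (u : Gx m E) : gact 0 id u = u := by
  cases u with
  | fb v S =>
    show Gx.fb v (fun j => S j + 0) = _
    simp only [add_zero]
  | ou e c =>
    show Gx.ou e (c + 0) = _
    rw [add_zero]
  | nn e c =>
    show Gx.nn e (c + 0) = _
    rw [add_zero]
  | ex a => rfl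

theorem gact_comp (M M' : ME m → ZMod 2) (θ θ' : E → E) (u : Gx m E) :
    gact (M + M') (θ ∘ θ') u = gact M θ (gact M' θ' u) := by
  cases u with
  | fb v S =>
    show Gx.fb v (fun j => S j + (M (mport m v j) + M' (mport m v j))) =
      Gx.fb v (fun j => S j + M' (mport m v j) + M (mport m v j))
    congr 1
    funext j
    ring
  | ou e c =>
    show Gx.ou e (c + (M e + M' e)) = Gx.ou e (c + M' e + M e)
    congr 1
    ring
  | nn e c =>
    show Gx.nn e (c + (M e + M' e)) = Gx.nn e (c + M' e + M e)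
    congr 1
    ring
  | ex a => rfl

/-- The action as a permutation. -/
def gactE (M : ME m → ZMod 2) (θ : E ≃ E) : Gx m E ≃ Gx m E where
  toFun := gact M θ
  invFun := gact (-M) θ.symm
  left_inv u := by
    rw [← gact_comp, neg_add_cancel]
    have : (θ.symm ∘ θ : E → E) = id := by
      funext a
      exact θ.symm_apply_apply a
    rw [this, gact_zero]
  right_inv u := by
    rw [← gact_comp, add_neg_cancel]
    have : (θ ∘ θ.symm : E → E) = id := by
      funext a
      exact θ.apply_symm_apply a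
    rw [this, gact_zero]

theorem glab_act {lb : E → ℕ} (M : ME m → ZMod 2) (θ : E ≃ E) (hθ : ∀ a, lb (θ a) = lb a)
    (u : Gx m E) : glab m lb (gactE M θ u) = glab m lb u := by
  cases u with
  | fb v S => rfl
  | ou e c => rfl
  | nn e c => rfl
  | ex a => exact hθ a

theorem grel_act [NeZero m] {Γ Γ' : SimpleGraph E} {att : MQ m → ZMod 2 → E → Prop}
    {x x' : MQ m → ZMod 2} {M : ME m → ZMod 2} {θ : E → E} (u w : Gx m E)
    (h : ∀ v S, u = Gx.fb v S → ∀ c a, att v c a ↔
      att v (c + x v + bd (msrc m) (mtgt m) M v + x' v) (θ a))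
    (hΓ : ∀ a b, Γ.Adj a b ↔ Γ'.Adj (θ a) (θ b)) :
    grel Γ att x u w ↔ grel Γ' att x' (gact M θ u) (gact M θ w) := by
  cases u with
  | fb v S =>
    cases w with
    | fb v' S' => exact Iff.rfl
    | ou e c =>
      show (∃ k, e = mport m v (Sum.inr k) ∧ c = S (Sum.inr k)) ↔
        ∃ k, e = mport m v (Sum.inr k) ∧ c + M e = S (Sum.inr k) + M (mport m v (Sum.inr k))
      refine exists_congr fun k => and_congr_right fun hk => ?_
      rw [← hk, add_left_inj]
    | nn e c =>
      show (∃ k, e = mport m v (Sum.inl k) ∧ c = S (Sum.inl k)) ↔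
        ∃ k, e = mport m v (Sum.inl k) ∧ c + M e = S (Sum.inl k) + M (mport m v (Sum.inl k))
      refine exists_congr fun k => and_congr_right fun hk => ?_
      rw [← hk, add_left_inj]
    | ex a =>
      show att v (∑ j, S j + x v) a ↔ att v (∑ j, (S j + M (mport m v j)) + x' v) (θ a)
      rw [h v S rfl (∑ j, S j + x v) a, Finset.sum_add_distrib, port_sum]
      have e1 := CharTwo.add_self_eq_zero (x v)
      have h2 : ∑ j, S j + x v + x v + bd (msrc m) (mtgt m) M v + x' v =
          ∑ j, S j + bd (msrc m) (mtgt m) M v + x' v := by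
        linear_combination e1
      rw [h2]
  | ou e c =>
    cases w with
    | fb v' S' => exact Iff.rfl
    | ou e' c' => exact Iff.rfl
    | nn e' c' =>
      show (e = e' ∧ c = c') ↔ (e = e' ∧ c + M e = c' + M e')
      refine and_congr_right fun he => ?_
      rw [he, add_left_inj]
    | ex a => exact Iff.rfl
  | nn e c =>
    cases w with
    | fb v' S' => exact Iff.rfl
    | ou e' c' => exact Iff.rfl
    | nn e' c' => exact Iff.rfl
    | ex a => exact Iff.rfl
  | ex a =>
    cases w with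
    | fb v' S' => exact Iff.rfl
    | ou e' c' => exact Iff.rfl
    | nn e' c' => exact Iff.rfl
    | ex b => exact hΓ a b

/-- A flow and a bijection of the extra vertices which fit together give an isomorphism. -/
theorem gg_iso [NeZero m] {Γ Γ' : SimpleGraph E} {att : MQ m → ZMod 2 → E → Prop} {lb : E → ℕ}
    {x x' : MQ m → ZMod 2} (M : ME m → ZMod 2) (θ : E ≃ E) (hθ : ∀ a, lb (θ a) = lb a)
    (h : ∀ v c a, att v c a ↔ att v (c + x v + bd (msrc m) (mtgt m) M v + x' v) (θ a))
    (hΓ : ∀ a b, Γ.Adj a b ↔ Γ'.Adj (θ a) (θ b)) :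
    Nonempty (gg Γ att lb x ≃g gg Γ' att lb x') := by
  refine ⟨⟨pact (gactE M θ) (glab_act M θ hθ), ?_⟩⟩
  intro u w
  rcases u with u | z
  · rcases w with w | z'
    · show (grel Γ' att x' (gact M θ u) (gact M θ w) ∨ grel Γ' att x' (gact M θ w) (gact M θ u)) ↔
        (grel Γ att x u w ∨ grel Γ att x w u)
      rw [← grel_act u w (fun v S _ => h v) hΓ, ← grel_act w u (fun v S _ => h v) hΓ]
    · show gactE M θ u = gactE M θ z'.1.1 ↔ u = z'.1.1
      exact (gactE M θ).injective.eq_iff
  · rcases w with w | z'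
    · show gactE M θ w = gactE M θ z.1.1 ↔ w = z.1.1
      exact (gactE M θ).injective.eq_iff
    · exact Iff.rfl

/-- If an isomorphism of the cores respects the fibres and fixes the extra vertices, then the sums
of the bits agree. -/
theorem sum_eq [NeZero m] {Γ : SimpleGraph E} {att : MQ m → ZMod 2 → E → Prop} {lb : E → ℕ}
    (hatt : ∀ v, ∃ a, ¬ (att v 0 a ↔ att v 1 a)) (x x' : MQ m → ZMod 2)
    (φ : Gx m E → Gx m E) (hinj : Function.Injective φ)
    (hlab : ∀ u, glab m lb (φ u) = glab m lb u)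
    (hadj : ∀ u w, (core Γ att x').Adj (φ u) (φ w) ↔ (core Γ att x).Adj u w)
    (hex : ∀ a, φ (Gx.ex a) = Gx.ex a) (hfb : ∀ v S, ∃ S', φ (Gx.fb v S) = Gx.fb v S') :
    ∑ v, x v = ∑ v, x' v := by
  have hou : ∀ e c, ∃ c', φ (Gx.ou e c) = Gx.ou e c' := by
    intro e c
    have h1 := (hadj (Gx.fb e.2 (fun _ => c)) (Gx.ou e c)).2 (Or.inl ⟨e.1, rfl, rfl⟩)
    obtain ⟨S', hS'⟩ := hfb e.2 (fun _ => c)
    have h3 := hlab (Gx.ou e c)
    rw [hS'] at h1
    cases hu : φ (Gx.ou e c) with
    | fb v' S' =>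
      rw [hu] at h3
      exact absurd (show 0 = e.1.1 + 1 from h3) (Nat.succ_ne_zero _).symm
    | ou e' c' =>
      rw [hu] at h1 h3
      have h4 : e'.1 = e.1 := by
        have h5 : e'.1.1 + 1 = e.1.1 + 1 := h3
        exact Fin.ext (by omega)
      rcases h1 with h1 | h1
      · obtain ⟨k, hk, _⟩ := h1
        have h6 : e'.2 = e.2 := by rw [hk]; rfl
        exact ⟨c', by rw [show e' = e from Prod.ext h4 h6]⟩
      · exact h1.elim
    | nn e' c' =>
      rw [hu] at h3
      have h5 : e'.1.1 + 5 = e.1.1 + 1 := h3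
      have h6 := e.1.2
      omega
    | ex h =>
      exfalso
      have h4 := hex h
      rw [← hu] at h4
      have h5 := hinj h4
      rw [hu] at h5
      cases h5
  have hnn : ∀ e c, ∃ c', φ (Gx.nn e c) = Gx.nn e c' := by
    intro e c
    have hport : mport m (mtgt m e) (Sum.inl e.1) = e := by
      show (e.1, (sg m e.1).symm (sg m e.1 e.2)) = e
      rw [Equiv.symm_apply_apply]
    have h1 := (hadj (Gx.fb (mtgt m e) (fun _ => c)) (Gx.nn e c)).2
      (Or.inl ⟨e.1, hport.symm, rfl⟩)
    obtain ⟨S', hS'⟩ := hfb (mtgt m e) (fun _ => c)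
    have h3 := hlab (Gx.nn e c)
    rw [hS'] at h1
    cases hu : φ (Gx.nn e c) with
    | fb v' S' =>
      rw [hu] at h3
      exact absurd (show 0 = e.1.1 + 5 from h3) (Nat.succ_ne_zero _).symm
    | ou e' c' =>
      rw [hu] at h3
      have h5 : e'.1.1 + 1 = e.1.1 + 5 := h3
      have h6 := e'.1.2
      omega
    | nn e' c' =>
      rw [hu] at h1 h3
      have h4 : e'.1 = e.1 := by
        have h5 : e'.1.1 + 5 = e.1.1 + 5 := h3
        exact Fin.ext (by omega)
      rcases h1 with h1 | h1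
      · obtain ⟨k, hk, _⟩ := h1
        have h7 : e'.1 = k := congrArg Prod.fst hk
        subst h7
        have h6 : e' = e := by
          rw [hk, h4]
          exact hport
        exact ⟨c', by rw [h6]⟩
      · exact h1.elim
    | ex h =>
      exfalso
      have h4 := hex h
      rw [← hu] at h4
      have h5 := hinj h4
      rw [hu] at h5
      cases h5
  choose f hf using hfb
  choose g hg using hou
  choose g' hg' using hnn
  have hgg : ∀ e c, g e c = g' e c := by
    intro e c
    have h1 := (hadj (Gx.ou e c) (Gx.nn e c)).2 (Or.inl ⟨rfl, rfl⟩)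
    rw [hg, hg'] at h1
    rcases h1 with h1 | h1
    · exact h1.2
    · exact h1.elim
  have hginj : ∀ e, Function.Injective (g e) := by
    intro e c c' h
    have h1 : φ (Gx.ou e c) = φ (Gx.ou e c') := by rw [hg, hg, h]
    have h2 := hinj h1
    injection h2
  set M : ME m → ZMod 2 := fun e => g e 0 with hM
  have hbool : ∀ (g : ZMod 2 → ZMod 2), Function.Injective g → ∀ c, g c = c + g 0 := by
    decide
  have hgM : ∀ e c, g e c = c + M e := fun e c => hbool (g e) (hginj e) c
  have hfS : ∀ v S j, f v S j = S j + M (mport m v j) := by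
    intro v S j
    rcases j with k | k
    · have h1 := (hadj (Gx.fb v S) (Gx.nn (mport m v (Sum.inl k)) (S (Sum.inl k)))).2
        (Or.inl ⟨k, rfl, rfl⟩)
      rw [hf, hg'] at h1
      rcases h1 with h1 | h1
      · obtain ⟨k', h2, h3⟩ := h1
        have h4 : k = k' := congrArg Prod.fst h2
        subst h4
        rw [← h3, ← hgg, hgM]
      · exact h1.elim
    · have h1 := (hadj (Gx.fb v S) (Gx.ou (mport m v (Sum.inr k)) (S (Sum.inr k)))).2
        (Or.inl ⟨k, rfl, rfl⟩)
      rw [hf, hg] at h1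
      rcases h1 with h1 | h1
      · obtain ⟨k', h2, h3⟩ := h1
        have h4 : k = k' := congrArg Prod.fst h2
        subst h4
        rw [← h3, hgM]
      · exact h1.elim
  have hx : ∀ v, x v = bd (msrc m) (mtgt m) M v + x' v := by
    intro v
    have h3 : ∑ j, f v 0 j = bd (msrc m) (mtgt m) M v := by
      rw [← port_sum]
      refine Finset.sum_congr rfl fun j _ => ?_
      rw [hfS, Pi.zero_apply, zero_add]
    have h0 : ∑ j : Pt, (0 : Pt → ZMod 2) j = 0 := Finset.sum_eq_zero fun j _ => rfl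
    have h2 : ∀ a, (att v (bd (msrc m) (mtgt m) M v + x' v) a ↔ att v (x v) a) := by
      intro a
      have h1 := hadj (Gx.fb v 0) (Gx.ex a)
      rw [hf, hex] at h1
      have h4 : (att v (∑ j, f v 0 j + x' v) a ↔
          att v (∑ j : Pt, (0 : Pt → ZMod 2) j + x v) a) :=
        ⟨fun h => (h1.1 (Or.inl h)).resolve_right id, fun h => (h1.2 (Or.inl h)).resolve_right id⟩
      rwa [h3, h0, zero_add] at h4
    obtain ⟨a, ha⟩ := hatt v
    have h4 : ∀ c : ZMod 2, c = 0 ∨ c = 1 := by decide
    rcases h4 (x v) with h5 | h5 <;>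
      rcases h4 (bd (msrc m) (mtgt m) M v + x' v) with h6 | h6
    · rw [h5, h6]
    · exfalso
      apply ha
      have h7 := h2 a
      rw [h5, h6] at h7
      exact h7.symm
    · exfalso
      apply ha
      have h7 := h2 a
      rw [h5, h6] at h7
      exact h7
    · rw [h5, h6]
  rw [Finset.sum_congr rfl fun v _ => hx v, Finset.sum_add_distrib, sum_bd, zero_add]

end Pool.Agent.Q210.GC
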