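import Pool.Agent.Q210.GC.Core
import Pool.Agent.Q210.SP.Wl

set_option autoImplicit false

/-! # The Weisfeiler-Leman dimension of the networks with an attached graph -/

namespace Pool.Agent.Q210.GC

open Finset Pool.Agent.TH658.Dg Pool.Agent.H521R3.BI Pool.Agent.Q210.SM Pool.Agent.Q210.SP
  Pool.Agent.Y598.IM Pool.Agent.W185.SRG

variable {m : ℕ} {E : Type} {lb : E → ℕ}

/-- The edges at a vertex of the core. -/
def clv : Gx m E → Finset (ME m)
  | Gx.fb v _ => univ.image (mport m v)
  | Gx.ou e _ => {e}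
  | Gx.nn e _ => {e}
  | Gx.ex _ => ∅

/-- The edges at a vertex. -/
def vlv : PV (glab m lb) → Finset (ME m)
  | Sum.inl u => clv u
  | Sum.inr z => clv z.1.1

theorem clv_card (u : Gx m E) : (clv u).card ≤ 8 := by
  cases u with
  | fb v S =>
    refine Finset.card_image_le.trans ?_
    rw [Finset.card_univ]
    rfl
  | ou e c =>
    show ({e} : Finset (ME m)).card ≤ 8
    rw [Finset.card_singleton]
    omega
  | nn e c =>
    show ({e} : Finset (ME m)).card ≤ 8
    rw [Finset.card_singleton]
    omega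
  | ex a => exact Nat.zero_le _

theorem vlv_card (u : PV (glab m lb)) : (vlv u).card ≤ 8 := by
  rcases u with u | z
  · exact clv_card u
  · exact clv_card z.1.1

/-- The action of a flow alone on the vertices. -/
def vact (M : ME m → ZMod 2) : PV (glab m lb) ≃ PV (glab m lb) :=
  pact (gactE M (Equiv.refl E)) (glab_act M (Equiv.refl E) fun _ => rfl)

theorem vact_inl (M : ME m → ZMod 2) (u : Gx m E) :
    (vact M (Sum.inl u) : PV (glab m lb)) = Sum.inl (gact M id u) := rfl

theorem gact_add (M M' : ME m → ZMod 2) (u : Gx m E) :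
    gact (M + M') id u = gact M id (gact M' id u) := gact_comp M M' id id u

theorem vact_zero (u : PV (glab m lb)) : vact 0 u = u := by
  rcases u with u | ⟨⟨u, i⟩, h⟩
  · rw [vact_inl, gact_zero]
  · show Sum.inr (⟨(gact 0 id u, i), _⟩ : {z : Gx m E × ℕ // z.2 < glab m lb z.1}) = _
    congr 1
    apply Subtype.ext
    show (gact 0 id u, i) = (u, i)
    rw [gact_zero]

theorem vact_add (M M' : ME m → ZMod 2) (u : PV (glab m lb)) :
    vact (M + M') u = vact M (vact M' u) := by
  rcases u with u | ⟨⟨u, i⟩, h⟩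
  · rw [vact_inl, vact_inl, vact_inl, gact_add]
  · show Sum.inr (⟨(gact (M + M') id u, i), _⟩ : {z : Gx m E × ℕ // z.2 < glab m lb z.1}) =
      Sum.inr (⟨(gact M id (gact M' id u), i), _⟩ : {z : Gx m E × ℕ // z.2 < glab m lb z.1})
    congr 1
    apply Subtype.ext
    show (gact (M + M') id u, i) = (gact M id (gact M' id u), i)
    rw [gact_add]

theorem clv_gact (M : ME m → ZMod 2) (u : Gx m E) : clv (gact M id u) = clv u := by
  cases u <;> rfl

theorem vlv_vact (M : ME m → ZMod 2) (u : PV (glab m lb)) : vlv (vact M u) = vlv u := by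
  rcases u with u | z
  · exact clv_gact M u
  · exact clv_gact M z.1.1

theorem gact_fix {M : ME m → ZMod 2} {u : Gx m E} (h : M ∈ NV (clv u)) : gact M id u = u := by
  cases u with
  | fb v S =>
    show Gx.fb v (fun j => S j + M (mport m v j)) = Gx.fb v S
    congr 1
    funext j
    rw [h (mport m v j) (Finset.mem_image_of_mem _ (Finset.mem_univ j)), add_zero]
  | ou e c =>
    show Gx.ou e (c + M e) = Gx.ou e c
    rw [h e (Finset.mem_singleton_self e), add_zero]
  | nn e c =>
    show Gx.nn e (c + M e) = Gx.nn e c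
    rw [h e (Finset.mem_singleton_self e), add_zero]
  | ex a => rfl

theorem gact_faithful {M : ME m → ZMod 2} {u : Gx m E} (h : gact M id u = u) :
    M ∈ NV (clv u) := by
  cases u with
  | fb v S =>
    have h1 : Gx.fb v (fun j => S j + M (mport m v j)) = (Gx.fb v S : Gx m E) := h
    injection h1 with _ h2
    intro w hw
    obtain ⟨j, _, rfl⟩ := Finset.mem_image.1 hw
    exact add_eq_left.1 (congrFun h2 j)
  | ou e c =>
    have h1 : Gx.ou e (c + M e) = (Gx.ou e c : Gx m E) := h
    injection h1 with _ h2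
    intro w hw
    rw [Finset.mem_singleton.1 hw]
    exact add_eq_left.1 h2
  | nn e c =>
    have h1 : Gx.nn e (c + M e) = (Gx.nn e c : Gx m E) := h
    injection h1 with _ h2
    intro w hw
    rw [Finset.mem_singleton.1 hw]
    exact add_eq_left.1 h2
  | ex a =>
    intro w hw
    exact absurd hw (Finset.notMem_empty w)

theorem vact_fix {M : ME m → ZMod 2} {u : PV (glab m lb)} (h : M ∈ NV (vlv u)) :
    vact M u = u := by
  rcases u with u | ⟨⟨u, i⟩, hz⟩
  · rw [vact_inl, gact_fix h]
  · show Sum.inr (⟨(gact M id u, i), _⟩ : {z : Gx m E × ℕ // z.2 < glab m lb z.1}) = _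
    congr 1
    apply Subtype.ext
    show (gact M id u, i) = (u, i)
    rw [gact_fix h]

theorem vact_faithful {M : ME m → ZMod 2} {u : PV (glab m lb)} (h : vact M u = u) :
    M ∈ NV (vlv u) := by
  rcases u with u | ⟨⟨u, i⟩, hz⟩
  · rw [vact_inl] at h
    exact gact_faithful (Sum.inl_injective h)
  · have h1 : (Sum.inr (⟨(gact M id u, i), _⟩ : {z : Gx m E × ℕ // z.2 < glab m lb z.1}) :
        PV (glab m lb)) = Sum.inr ⟨(u, i), hz⟩ := h
    have h2 := congrArg (fun z : {z : Gx m E × ℕ // z.2 < glab m lb z.1} => z.1.1)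
      (Sum.inr_injective h1)
    exact gact_faithful h2

variable [NeZero m] {Γ : SimpleGraph E} {att : MQ m → ZMod 2 → E → Prop}

theorem gg_vact {x x' : MQ m → ZMod 2} {M : ME m → ZMod 2} (u w : PV (glab m lb))
    (h : ∀ v S, u = Sum.inl (Gx.fb v S) ∨ w = Sum.inl (Gx.fb v S) →
      bd (msrc m) (mtgt m) M v = x' v - x v) :
    (gg Γ att lb x).Adj u w ↔ (gg Γ att lb x').Adj (vact M u) (vact M w) := by
  have key : ∀ v, bd (msrc m) (mtgt m) M v = x' v - x v → ∀ c a, att v c a ↔
      att v (c + x v + bd (msrc m) (mtgt m) M v + x' v) (id a) := by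
    intro v hv c a
    have h1 : c + x v + bd (msrc m) (mtgt m) M v + x' v = c := by
      rw [hv]
      have e1 := CharTwo.add_self_eq_zero (x' v)
      linear_combination e1
    rw [h1]
    exact Iff.rfl
  rcases u with u | z
  · rcases w with w | z'
    · show (grel Γ att x u w ∨ grel Γ att x w u) ↔
        (grel Γ att x' (gact M id u) (gact M id w) ∨ grel Γ att x' (gact M id w) (gact M id u))
      rw [grel_act (Γ' := Γ) (M := M) (θ := id) (x' := x') u w
        (fun v S hu => key v (h v S (Or.inl (by rw [hu])))) (fun _ _ => Iff.rfl),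
        grel_act (Γ' := Γ) (M := M) (θ := id) (x' := x') w u
        (fun v S hu => key v (h v S (Or.inr (by rw [hu])))) (fun _ _ => Iff.rfl)]
    · show u = z'.1.1 ↔ gactE M (Equiv.refl E) u = gactE M (Equiv.refl E) z'.1.1
      exact (gactE M (Equiv.refl E)).injective.eq_iff.symm
  · rcases w with w | z'
    · show w = z.1.1 ↔ gactE M (Equiv.refl E) w = gactE M (Equiv.refl E) z.1.1
      exact (gactE M (Equiv.refl E)).injective.eq_iff.symm
    · exact Iff.rfl

/-- The family of the graphs with their local isomorphisms. -/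
noncomputable def tFam (m K : ℕ) [NeZero m] (lb : E → ℕ) (Γ : SimpleGraph E)
    (att : MQ m → ZMod 2 → E → Prop) (hatt : ∀ v, ∃ a, ¬ (att v 0 a ↔ att v 1 a))
    (hE : Expd (ZMod 2) (msrc m) (mtgt m) (1600 * K) K) (hK : 1 ≤ K) :
    Fam (ME m → ZMod 2) (Finset (ME m)) (PV (glab m lb)) (MQ m → ZMod 2) where
  N := NV
  D := DV (1600 * K)
  Sol b b' W := SolV (1600 * K) (b' - b) W
  size W := W.card
  K := K
  N_anti W W' h M hM w hw := hM w (h hw)
  N_sup W W' M hM w hw := by
    rcases Finset.mem_union.1 hw with h | h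
    · exact hM.1 w h
    · exact hM.2 w h
  N_bot := by
    rw [eq_top_iff]
    intro M _ w hw
    exact absurd hw (Finset.notMem_empty w)
  Sol_anti b b' W W' h M hM y h1 h2 := hM y h1 fun e he => h2 e fun he' => he (h he')
  sol_D b W M := by
    show M ∈ SolV (1600 * K) (b - b) W ↔ M ∈ SolV (1600 * K) 0 W
    rw [sub_self]
  neg_mem b b' W M hM := by
    have := SolV_neg (show M ∈ SolV (1600 * K) (b' - b) W from hM)
    rwa [neg_sub] at this
  add_mem b b' b'' W M M' hM hM' := by
    have := SolV_add (show M ∈ SolV (1600 * K) (b' - b) W from hM)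
      (show M' ∈ SolV (1600 * K) (b'' - b') W from hM')
    have h1 : b' - b + (b'' - b') = b'' - b := by abel
    rwa [h1] at this
  size_bot := Finset.card_empty
  size_mono W W' h := Finset.card_le_card h
  size_sup W W' := Finset.card_union_le _ _
  bot_sol b b' := by
    refine ⟨0, ?_⟩
    intro y h1 h2
    rw [hE.ker y h1 fun e => h2 e (Finset.notMem_empty e)]
    simp
  extend b b' W W' hWW hW' M hM := by
    obtain ⟨M', hM', hag⟩ := hE.extend (b' - b) hWW hW' hM
    refine ⟨M', hM', fun w hw => ?_⟩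
    rw [Pi.sub_apply, hag w hw, sub_self]
  act := vact
  act_zero u := vact_zero u
  act_add M M' u := vact_add M M' u
  lv := vlv
  lv_act M u := vlv_vact M u
  fix M x hM := vact_fix hM
  faithful M x hM := vact_faithful hM
  c := 8
  size_lv x := vlv_card x
  G b := (gg Γ att lb b).Adj
  G_inj b b' h := by
    funext v
    have h0 : ∑ j : Pt, (0 : Pt → ZMod 2) j = 0 := Finset.sum_eq_zero fun j _ => rfl
    have h4 : ∀ (b : MQ m → ZMod 2) (a : E),
        (gg Γ att lb b).Adj (Sum.inl (Gx.fb v 0)) (Sum.inl (Gx.ex a)) ↔ att v (b v) a := by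
      intro b a
      constructor
      · intro h
        have h5 : att v (∑ j : Pt, (0 : Pt → ZMod 2) j + b v) a := h.resolve_right id
        rwa [h0, zero_add] at h5
      · intro h
        refine Or.inl ?_
        show att v (∑ j : Pt, (0 : Pt → ZMod 2) j + b v) a
        rw [h0, zero_add]
        exact h
    have h5 : ∀ a, att v (b v) a ↔ att v (b' v) a := by
      intro a
      have h3 : (gg Γ att lb b).Adj (Sum.inl (Gx.fb v 0)) (Sum.inl (Gx.ex a)) =
          (gg Γ att lb b').Adj (Sum.inl (Gx.fb v 0)) (Sum.inl (Gx.ex a)) :=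
        congrFun (congrFun h (Sum.inl (Gx.fb v 0))) (Sum.inl (Gx.ex a))
      rw [← h4, ← h4, h3]
    obtain ⟨a, ha⟩ := hatt v
    have h6 : ∀ c : ZMod 2, c = 0 ∨ c = 1 := by decide
    rcases h6 (b v) with h7 | h7 <;> rcases h6 (b' v) with h8 | h8
    · rw [h7, h8]
    · exfalso
      apply ha
      have h9 := h5 a
      rwa [h7, h8] at h9
    · exfalso
      apply ha
      have h9 := h5 a
      rw [h7, h8] at h9
      exact h9.symm
    · rw [h7, h8]
  adj b b' u w M hM := by
    refine gg_vact u w fun v S hv => ?_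
    have h1 : univ.image (mport m v) ⊆ vlv u ⊔ vlv w := by
      rcases hv with rfl | rfl
      · exact Finset.subset_union_left
      · exact Finset.subset_union_right
    have h2 := flowSys_node hE (by omega) (b' - b) (W := vlv u ⊔ vlv w) (M := M) hM v
      (fun e he => h1 (by
        obtain ⟨j, hj⟩ := (mport_inc m v e).1 he
        exact Finset.mem_image.2 ⟨j, Finset.mem_univ _, hj⟩))
    exact h2

theorem gg_wl [Fintype E] (hatt : ∀ v, ∃ a, ¬ (att v 0 a ↔ att v 1 a)) {K j : ℕ}
    (hK : 6400 * K ≤ m ^ 2) (hj : 8 * (j + 1) ≤ K) (x x' : MQ m → ZMod 2) :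
    WLEquivalent j (gg Γ att lb x) (gg Γ att lb x') :=
  (tFam m K lb Γ att hatt (marg_expd (ZMod 2) m K hK) (by omega)).wl (gg Γ att lb)
    (fun _ => rfl) x x' j hj

end Pool.Agent.Q210.GC
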